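import Pool.Agent.K3h22.EX.Stm4
import Pool.Agent.K3h43.EX.Hroot

/-! EX project (helper22): holomorphic roots on convex open sets with a given value. -/

set_option autoImplicit false

namespace Pool.Agent.K3h73.EX

open MvPolynomial Filter Topology Metric Set Pool.Agent.K3h22.EX

theorem t_HROOT2 : S_HROOT2 := by
  intro s β _ p c f U W Δ hf hUW R Ω hΩo hΩc hΔ ζ hζ u hu0
  have hn : 1 ≤ f.natDegree := by
    by_contra hlt
    have h0 : f.natDegree = 0 := by omega
    have h1 : f = 1 := Polynomial.eq_one_of_monic_natDegree_zero hf h0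
    rw [h1] at hu0
    simp at hu0
  set F : (Fin s → ℂ) → ℂ → ℂ := fun v x => (f.map (val p c (sc R v))).eval x with hF
  have hFsum : ∀ v x, F v x = ∑ k ∈ Finset.range (f.natDegree + 1),
      val p c (sc R v) (f.coeff k) * x ^ k := by
    intro v x
    simp only [hF]
    rw [Polynomial.eval_map, Polynomial.eval₂_eq_sum_range]
  have hcd : ContDiff ℂ 1 (fun q : (Fin s → ℂ) × ℂ => F q.1 q.2) := by
    have h1 : ContDiff ℂ 1 (fun q : (Fin s → ℂ) × ℂ => ∑ k ∈ Finset.range (f.natDegree + 1),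
      val p c (sc R q.1) (f.coeff k) * q.2 ^ k) := by
      apply ContDiff.sum
      intro k _
      exact ((Pool.Agent.K3h43.EX.t_VALHOL s β p c (f.coeff k) R).comp contDiff_fst).mul (contDiff_snd.pow k)
    have h2 : (fun q : (Fin s → ℂ) × ℂ => F q.1 q.2) =
        fun q : (Fin s → ℂ) × ℂ => ∑ k ∈ Finset.range (f.natDegree + 1),
          val p c (sc R q.1) (f.coeff k) * q.2 ^ k := by
      funext q
      exact hFsum q.1 q.2
    rw [h2]
    exact h1
  have hprop : ∀ K : Set (Fin s → ℂ), K ⊆ Ω → IsCompact K → ∀ M : ℝ, ∃ B : ℝ, ∀ v ∈ K, ∀ z,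
      ‖F v z‖ ≤ M → ‖z‖ ≤ B := by
    intro K _ hK M
    have hcont : Continuous fun v : Fin s → ℂ => ∑ k ∈ Finset.range f.natDegree,
        ‖val p c (sc R v) (f.coeff k)‖ :=
      continuous_finsetSum _ fun k _ => (Pool.Agent.K3h43.EX.t_VALHOL s β p c (f.coeff k) R).continuous.norm
    obtain ⟨B0, hB0⟩ := hK.bddAbove_image hcont.continuousOn
    refine ⟨max 1 (M + B0), ?_⟩
    intro v hv z hz
    rcases le_or_gt ‖z‖ 1 with h | h
    · exact h.trans (le_max_left _ _)
    refine le_trans ?_ (le_max_right _ _)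
    have hb : ∑ k ∈ Finset.range f.natDegree, ‖val p c (sc R v) (f.coeff k)‖ ≤ B0 :=
      hB0 ⟨v, hv, rfl⟩
    have hM : 0 ≤ M := (norm_nonneg _).trans hz
    obtain ⟨m, hm⟩ : ∃ m, f.natDegree = m + 1 := ⟨f.natDegree - 1, by omega⟩
    have hFz : F v z = (∑ k ∈ Finset.range f.natDegree, val p c (sc R v) (f.coeff k) * z ^ k) +
        z ^ f.natDegree := by
      rw [hFsum, Finset.sum_range_succ]
      congr 1
      rw [Polynomial.Monic.coeff_natDegree hf, map_one, one_mul]
    have h1 : ‖z‖ ^ f.natDegree ≤ M + B0 * ‖z‖ ^ m := by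
      have h2 : z ^ f.natDegree = F v z -
          ∑ k ∈ Finset.range f.natDegree, val p c (sc R v) (f.coeff k) * z ^ k := by
        rw [hFz]; ring
      calc ‖z‖ ^ f.natDegree = ‖z ^ f.natDegree‖ := (norm_pow _ _).symm
        _ = ‖F v z - ∑ k ∈ Finset.range f.natDegree, val p c (sc R v) (f.coeff k) * z ^ k‖ := by
            rw [h2]
        _ ≤ ‖F v z‖ + ‖∑ k ∈ Finset.range f.natDegree, val p c (sc R v) (f.coeff k) * z ^ k‖ :=
            norm_sub_le _ _
        _ ≤ M + ∑ k ∈ Finset.range f.natDegree, ‖val p c (sc R v) (f.coeff k) * z ^ k‖ :=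
            add_le_add hz (norm_sum_le _ _)
        _ ≤ M + ∑ k ∈ Finset.range f.natDegree, ‖val p c (sc R v) (f.coeff k)‖ * ‖z‖ ^ m := by
            gcongr with k hk
            rw [norm_mul, norm_pow]
            have hk' := Finset.mem_range.mp hk
            gcongr
            · exact h.le
            · omega
        _ = M + (∑ k ∈ Finset.range f.natDegree, ‖val p c (sc R v) (f.coeff k)‖) * ‖z‖ ^ m := by
            rw [Finset.sum_mul]
        _ ≤ M + B0 * ‖z‖ ^ m := by gcongr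
    have h3 : M ≤ M * ‖z‖ ^ m := by
      have : 1 ≤ ‖z‖ ^ m := one_le_pow₀ h.le
      nlinarith
    have h4 : ‖z‖ * ‖z‖ ^ m ≤ (M + B0) * ‖z‖ ^ m := by
      calc ‖z‖ * ‖z‖ ^ m = ‖z‖ ^ f.natDegree := by rw [hm]; ring
        _ ≤ M + B0 * ‖z‖ ^ m := h1
        _ ≤ (M + B0) * ‖z‖ ^ m := by linarith
    exact le_of_mul_le_mul_right h4 (by positivity)
  have hsimple : ∀ v ∈ Ω, ∀ z, F v z = 0 → deriv (F v) z ≠ 0 := by
    intro v hv z hz hd
    have h1 : deriv (F v) z = ((Polynomial.derivative f).map (val p c (sc R v))).eval z := by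
      rw [← Polynomial.derivative_map]
      exact Polynomial.deriv _
    have h2 := congrArg (fun q => (Polynomial.map (val p c (sc R v)) q).eval z) hUW
    simp only [Polynomial.map_add, Polynomial.map_mul, Polynomial.eval_add, Polynomial.eval_mul,
      Polynomial.map_C, Polynomial.eval_C] at h2
    rw [h1] at hd
    have hz' : (f.map (val p c (sc R v))).eval z = 0 := hz
    rw [hd, hz', mul_zero, mul_zero, add_zero] at h2
    exact hΔ v hv h2.symm
  have hu : F ζ u = 0 := hu0
  obtain ⟨Z, hZ1, hZ2, hZ3, -⟩ := Pool.Agent.H713R3.ZA.ROOT.main Ω F hΩo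
    hΩc hcd.contDiffOn hprop hsimple ζ hζ u hu
  exact ⟨Z, hZ1, hZ2, hZ3⟩

end Pool.Agent.K3h73.EX
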